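import Pool.Agent.ORB.Main

/-!
# Hitting sets of polynomial size for orbits of formulas of bounded depth and occurrence

Black-box identity testing, in polynomial time, for polynomials which become formulas of bounded
depth and bounded occurrence (over leaves in small spaces, such as sparse polynomials) after an
unknown invertible affine change of the coordinates.
-/

set_option autoImplicit false

namespace Pool.Agent.Results.MP_e2be99_lc.OrbitFormulas

open MvPolynomial Pool.Agent.ORB

theorem result (n κ k s Δ D : ℕ) :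
    (hittingSet n (ordn n κ k s Δ) (seeds κ k Δ) (D * (ordn n κ k s Δ + 1))).card ≤
      (D * (ordn n κ k s Δ + 1) + 1) ^ (3 + 2 * seeds κ k Δ) ∧
    (∀ x ∈ hittingSet n (ordn n κ k s Δ) (seeds κ k Δ) (D * (ordn n κ k s Δ + 1)), ∀ i,
      x i ≤ (1 + (seeds κ k Δ + 1) * (D * (ordn n κ k s Δ + 1))) * (ordn n κ k s Δ *
        ((ordn n κ k s Δ).factorial *
          (n * (D * (ordn n κ k s Δ + 1)) + 1) ^ ordn n κ k s Δ))) ∧
    ∀ (K : Type*) [Field K] [CharZero K],
      (∀ g : MvPolynomial (Fin n) K, g.support.card ≤ s → MixedLeaf ∅ s g) ∧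
      (∀ (m : ℕ) (g : Fin m → MvPolynomial (Fin n) K), (∀ j, OrbitClass κ k s Δ (g j)) →
        (∀ j, g j ≠ 0) → ∀ f : MvPolynomial (Fin n) K, f ∣ ∏ j, g j → f.totalDegree ≤ D →
        ∃ x ∈ hittingSet n (ordn n κ k s Δ) (seeds κ k Δ) (D * (ordn n κ k s Δ + 1)),
          eval (fun i => (x i : K)) f ≠ 0) :=
  ⟨card_hittingSet n _ _ _, fun x hx i => bound_hittingSet n _ _ _ x hx i, fun _ _ _ =>
    ⟨fun _ hg => mixedLeaf_of_support hg, fun m g hg hg0 f hf hD =>
      main_hit κ k s Δ D m g hg hg0 f hf hD⟩⟩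

end Pool.Agent.Results.MP_e2be99_lc.OrbitFormulas
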